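import Mathlib
import Pool.Agent.Q72.Res.BReg
import Pool.Agent.Q72.Res.Lower

/-!
# MP_eb294e_an: the residual function of a rooftop envelope of two functions with the same
idempotent residual function can be strictly smaller

On the unit ball of `ℂ²` put `ω = (1 + z₁)/(1 - z₁)` and `ζ = z₂/(1 - z₁)`, so that
`Re ω - |ζ|² = (1 - |z|²)/|1 - z₁|² > 0`.  The pluriharmonic functions `φ = -Re (ω - ζ²)` and
`ψ = -Re (ω + ζ²)` are negative and have the same residual function `g = -(Re ω - |ζ|²)`, which is
idempotent.  Everything below `min (φ, ψ) + C` is below `(3/2) g`.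
-/

set_option autoImplicit false

open Metric Set Filter Topology

namespace Pool.Agent.Results.MP_eb294e_an.RooftopResidualFails

open Q72.Psh Q72.Res

theorem result :
    ∃ D : Set (Cn 2), IsBRegular D ∧ ∃ φ ∈ PSHneg D, ∃ ψ ∈ PSHneg D, ∃ g ∈ PSHneg D,
      (∀ z ∈ D, res D φ z = g z) ∧ (∀ z ∈ D, res D ψ z = g z) ∧ (∀ z ∈ D, res D g z = g z) ∧
      (∀ z ∈ D, res D (roof D φ ψ) z < g z) := by
  refine ⟨B2, isBRegular_ball two_pos, _, phip_mem, _, phim_mem, _, Om_mem, fun z hz => res_phip hz,
    fun z hz => res_phim hz, fun z hz => res_Om hz, fun z hz => ?_⟩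
  have h1 : res B2 (roof B2 (fun z => ((phip z : ℝ) : EReal)) (fun z => ((phim z : ℝ) : EReal))) z ≤
      ((3 / 2 * Om z : ℝ) : EReal) := by
    apply res_le isOpen_ball (continuousOn_const.mul continuousOn_Om) _ hz
    rintro v hv ⟨C, hC⟩ y hy
    refine bound_min hv.1 hv.2.1 (C := C) (fun x hx => ?_) hy
    have h2 : roof B2 (fun z => ((phip z : ℝ) : EReal)) (fun z => ((phim z : ℝ) : EReal)) x ≤
        ((phip x : ℝ) : EReal) :=
      env_le isOpen_ball continuousOn_phip (fun w _ hw t ht => (hw t ht).trans (min_le_left _ _)) hx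
    have h3 : roof B2 (fun z => ((phip z : ℝ) : EReal)) (fun z => ((phim z : ℝ) : EReal)) x ≤
        ((phim x : ℝ) : EReal) :=
      env_le isOpen_ball continuousOn_phim (fun w _ hw t ht => (hw t ht).trans (min_le_right _ _)) hx
    rcases min_choice (phip x) (phim x) with h | h
    · rw [h, EReal.coe_add]
      exact (hC x hx).trans (by gcongr)
    · rw [h, EReal.coe_add]
      exact (hC x hx).trans (by gcongr)
  refine lt_of_le_of_lt h1 ?_
  rw [EReal.coe_lt_coe_iff]
  have := Om_neg hz
  linarith

end Pool.Agent.Results.MP_eb294e_an.RooftopResidualFails
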